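import Mathlib

namespace Pool.Agent.Results.MP_a5173a_lc.Yes
open Finset Classical

variable {J : Type} {m : ℕ}

/-- A schedule: the job, if any, that each machine runs at each time. -/
abbrev Sched (J : Type) (m : ℕ) := ℝ → Fin m → Option J

/-- Jobs run on eligible machines only, and on at most one machine at a time. -/
def Feasible (M : J → Finset (Fin m)) (σ : Sched J m) : Prop :=
  (∀ u i j, σ u i = some j → i ∈ M j) ∧ ∀ u i i' j, σ u i = some j → σ u i' = some j → i = i'

/-- Job `j` is complete at time `t`: it has run for `p j` time units without interruption on one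
machine. -/
def Done (p : J → ℝ) (σ : Sched J m) (j : J) (t : ℝ) : Prop :=
  ∃ i a, 0 ≤ a ∧ a + p j ≤ t ∧ ∀ u, a < u → u < a + p j → σ u i = some j

/-- A deterministic online algorithm with restarts: it learns a running time only when the job
completes, so changing running times of jobs that stay incomplete at time `t` does not change what
it does before time `t`. -/
def Online (M : J → Finset (Fin m)) (A : (J → ℝ) → Sched J m) : Prop :=
  (∀ p, (∀ j, 0 < p j) → Feasible M (A p)) ∧
  ∀ p p' t, (∀ j, 0 < p j) → (∀ j, 0 < p' j) →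
    (∀ j, p j = p' j ∨ (¬ Done p (A p) j t ∧ ¬ Done p' (A p) j t)) → ∀ u < t, A p' u = A p u

/-- If some offline schedule has makespan at most `D`, the algorithm has makespan at most `c D`. -/
def Competitive (M : J → Finset (Fin m)) (A : (J → ℝ) → Sched J m) (c : ℝ) : Prop :=
  ∀ p, (∀ j, 0 < p j) → ∀ τ D, Feasible M τ → (∀ j, Done p τ j D) → ∀ j, Done p (A p) j (c * D)

noncomputable def w (σ : Sched J m) (t : ℕ) (j : J) : ℕ :=
  #((range t).filter fun s : ℕ => ∃ i, σ s i = some j)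

lemma w_le (σ : Sched J m) (t : ℕ) (j : J) : w σ t j ≤ t :=
  (card_filter_le _ _).trans (by simp)

lemma cnt {p : J → ℝ} {σ : Sched J m} {j : J} {t : ℕ} (h : Done p σ j t) :
    p j < w σ t j + 2 := by
  obtain ⟨i, a, ha, hat, hrun⟩ := h
  by_contra hc
  push Not at hc
  have hsub : Ioc ⌊a⌋₊ (⌊a⌋₊ + w σ t j + 1) ⊆
      (range t).filter fun s : ℕ => ∃ i, σ s i = some j := by
    intro s hs
    rw [mem_Ioc] at hs
    have h1 : ((⌊a⌋₊ + 1 : ℕ) : ℝ) ≤ s := by exact_mod_cast hs.1
    have h2 : (s : ℝ) ≤ ((⌊a⌋₊ + w σ t j + 1 : ℕ) : ℝ) := by exact_mod_cast hs.2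
    push_cast at h1 h2
    have h3 := Nat.lt_floor_add_one a
    have h4 := Nat.floor_le ha
    have h5 : (s : ℝ) < t := by linarith
    exact mem_filter.2 ⟨mem_range.2 (by exact_mod_cast h5), i, hrun s (by linarith) (by linarith)⟩
  have := card_le_card hsub
  rw [Nat.card_Ioc] at this
  change _ ≤ w σ t j at this
  omega

lemma offline [Fintype J] (M : J → Finset (Fin m)) (p : J → ℝ) (hp : ∀ j, 0 < p j)
    (f : J → Fin m) (hf : ∀ j, f j ∈ M j) (B : ℝ)
    (hB : ∀ b, ∑ j ∈ univ.filter (fun j => f j = b), p j ≤ B) :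
    ∃ τ, Feasible M τ ∧ ∀ j, Done p τ j B := by
  let rk : J → ℕ := fun j => (Fintype.equivFin J j : ℕ)
  have hrk : Function.Injective rk := fun a b h => (Fintype.equivFin J).injective (Fin.ext h)
  let st : J → ℝ := fun j => ∑ k ∈ univ.filter (fun k => f k = f j ∧ rk k < rk j), p k
  have hins : ∀ j, st j + p j = ∑ k ∈ insert j (univ.filter (fun k => f k = f j ∧ rk k < rk j)),
      p k := fun j => by rw [sum_insert (by simp), add_comm]
  have hlt : ∀ j k, f j = f k → rk j < rk k → st j + p j ≤ st k := by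
    intro j k h1 h2
    rw [hins]
    refine sum_le_sum_of_subset_of_nonneg ?_ fun x _ _ => (hp x).le
    intro x hx
    simp only [mem_insert, mem_filter, mem_univ, true_and] at hx ⊢
    rcases hx with rfl | ⟨h3, h4⟩
    · exact ⟨h1, h2⟩
    · exact ⟨h3.trans h1, h4.trans h2⟩
  let τ : Sched J m := fun u i =>
    if h : ∃ j, f j = i ∧ st j < u ∧ u < st j + p j then some h.choose else none
  have hτ : ∀ u i j, τ u i = some j → f j = i := by
    intro u i j h
    simp only [τ] at h
    split_ifs at h with h'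
    rw [← Option.some.inj h]
    exact h'.choose_spec.1
  refine ⟨τ, ⟨fun u i j h => hτ u i j h ▸ hf j,
    fun u i i' j h h' => (hτ u i j h).symm.trans (hτ u i' j h')⟩, fun j => ⟨f j, st j, ?_, ?_, ?_⟩⟩
  · exact sum_nonneg fun x _ => (hp x).le
  · rw [hins]
    refine le_trans (sum_le_sum_of_subset_of_nonneg ?_ fun x _ _ => (hp x).le) (hB (f j))
    intro x hx
    simp only [mem_insert, mem_filter, mem_univ, true_and] at hx ⊢
    rcases hx with rfl | ⟨h3, _⟩
    · rfl
    · exact h3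
  · intro u h1 h2
    have h' : ∃ k, f k = f j ∧ st k < u ∧ u < st k + p k := ⟨j, rfl, h1, h2⟩
    simp only [τ, dif_pos h']
    obtain ⟨k1, k2, k3⟩ := h'.choose_spec
    congr 1
    apply hrk
    rcases lt_trichotomy (rk h'.choose) (rk j) with h | h | h
    · linarith [hlt _ _ k1 h]
    · exact h
    · linarith [hlt _ _ k1.symm h]

section
variable [Fintype J] (M : J → Finset (Fin m))

noncomputable def W (x : J → ℕ) (S : Finset (Fin m)) : ℝ :=
  ∑ j ∈ univ.filter (fun j => M j ⊆ S), (x j : ℝ)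

noncomputable def inc (x : J → ℕ) (S : Finset (Fin m)) (b : Fin m) : ℝ :=
  ∑ j ∈ univ.filter (fun j => M j ⊆ S ∧ b ∈ M j), (x j : ℝ)

def Inv (H B : ℝ) (S : Finset (Fin m)) (p : J → ℝ) : Prop :=
  (∀ j, 0 < p j) ∧ (∀ j, M j ⊆ S → p j = H) ∧ ∃ f : J → Fin m,
    (∀ j, ¬ M j ⊆ S → f j ∈ M j ∧ f j ∉ S) ∧
    ∀ b, ∑ j ∈ univ.filter (fun j => ¬ M j ⊆ S ∧ f j = b), p j ≤ B

lemma W_erase (x : J → ℕ) (S : Finset (Fin m)) (b : Fin m) :
    W M x (S.erase b) + inc M x S b = W M x S := by
  simp only [W, inc, sum_filter, ← sum_add_distrib, subset_erase]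
  refine sum_congr rfl fun j _ => ?_
  by_cases h1 : M j ⊆ S <;> by_cases h2 : b ∈ M j <;> simp [h1, h2]

lemma inc_erase (x : J → ℕ) (S : Finset (Fin m)) (b b' : Fin m) :
    inc M x (S.erase b) b' ≤ inc M x S b' := by
  refine sum_le_sum_of_subset_of_nonneg ?_ fun j _ _ => Nat.cast_nonneg _
  intro j hj
  simp only [mem_filter, mem_univ, true_and] at hj ⊢
  exact ⟨hj.1.trans (erase_subset _ _), hj.2⟩

lemma sum_inc (h2 : ∀ j, #(M j) = 2) (x : J → ℕ) (S : Finset (Fin m)) :
    ∑ b ∈ S, inc M x S b = 2 * W M x S := by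
  simp only [W, inc, sum_filter, mul_sum]
  rw [sum_comm]
  refine sum_congr rfl fun j _ => ?_
  by_cases h1 : M j ⊆ S
  · simp only [h1, true_and, if_true]
    rw [← sum_filter, filter_mem_eq_inter, inter_eq_right.2 h1, sum_const, h2]
    simp
  · simp [h1]

variable {M} {A : (J → ℝ) → Sched J m} {H B : ℝ}

lemma kill (hA : Online M A) (hd : ∀ b, #{j | b ∈ M j} ≤ 2 * m) {t : ℕ} (hH : (t : ℝ) + 2 ≤ H)
    {S : Finset (Fin m)} {p : J → ℝ} (hI : Inv M H B S p) {b : Fin m} (hb : b ∈ S)
    (hB : inc M (w (A p) t) S b + 4 * m ≤ B) :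
    ∃ p', Inv M H B (S.erase b) p' ∧ w (A p') t = w (A p) t ∧
      ∀ j, (w (A p) t j : ℝ) + 2 ≤ p j → (w (A p) t j : ℝ) + 2 ≤ p' j := by
  obtain ⟨h1, h2, f, h3, h4⟩ := hI
  let p' : J → ℝ := fun j => if M j ⊆ S ∧ b ∈ M j then w (A p) t j + 2 else p j
  have hp' : ∀ j, 0 < p' j := fun j => by
    simp only [p']; split_ifs
    · positivity
    · exact h1 j
  refine ⟨p', ⟨hp', ?_, fun j => if M j ⊆ S ∧ b ∈ M j then b else f j, ?_, ?_⟩, ?_, ?_⟩
  · intro j hj
    rw [subset_erase] at hj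
    simp only [p', hj.2, and_false, if_false]
    exact h2 j hj.1
  · intro j hj
    rw [subset_erase] at hj
    beta_reduce
    split_ifs with h
    · exact ⟨h.2, by simp⟩
    · have : ¬ M j ⊆ S := by tauto
      exact ⟨(h3 j this).1, fun h' => (h3 j this).2 (mem_of_mem_erase h')⟩
  · intro b'
    by_cases hbb : b' = b
    · subst hbb
      have : univ.filter (fun j => ¬ M j ⊆ S.erase b' ∧
          (if M j ⊆ S ∧ b' ∈ M j then b' else f j) = b') =
          univ.filter (fun j => M j ⊆ S ∧ b' ∈ M j) := by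
        refine filter_congr fun j _ => ?_
        rw [subset_erase]
        split_ifs with h
        · simp [h]
        · simp only [h, iff_false, not_and]
          intro h5 h6
          have : ¬ M j ⊆ S := by tauto
          exact (h3 j this).2 (h6 ▸ hb)
      rw [this, sum_congr rfl (g := fun j => (w (A p) t j : ℝ) + 2)
        (fun j hj => if_pos (mem_filter.1 hj).2), sum_add_distrib, sum_const, nsmul_eq_mul]
      have hc : #{j | M j ⊆ S ∧ b' ∈ M j} ≤ 2 * m :=
        (card_le_card (monotone_filter_right _ fun j _ hj => hj.2)).trans (hd b')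
      have hc' : (#{j | M j ⊆ S ∧ b' ∈ M j} : ℝ) ≤ 2 * m := by exact_mod_cast hc
      unfold inc at hB
      linarith
    · refine le_trans (le_of_eq ?_) (h4 b')
      refine sum_congr (filter_congr fun j _ => ?_) fun j hj => ?_
      · rw [subset_erase]
        beta_reduce
        split_ifs with h
        · simp [h, Ne.symm hbb]
        · tauto
      · exact if_neg fun h => (mem_filter.1 hj).2.1 h.1
  · have key : ∀ u < (t : ℝ), A p' u = A p u := by
      refine hA.2 p p' t h1 hp' fun j => ?_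
      by_cases h : M j ⊆ S ∧ b ∈ M j
      · right
        have hw : (w (A p) t j : ℝ) ≤ t := by exact_mod_cast w_le (A p) t j
        refine ⟨fun hD => ?_, fun hD => ?_⟩
        · have := cnt hD
          rw [h2 j h.1] at this
          linarith
        · have := cnt hD
          simp only [p', if_pos h] at this
          exact lt_irrefl _ this
      · left
        simp only [p', if_neg h]
    funext j
    unfold w
    congr 1
    refine filter_congr fun s hs => ?_
    rw [key s (by exact_mod_cast mem_range.1 hs)]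
  · intro j hj
    simp only [p']
    split_ifs
    · exact le_rfl
    · exact hj

lemma closure (hA : Online M A) (hd : ∀ b, #{j | b ∈ M j} ≤ 2 * m) {t : ℕ}
    (hH : (t : ℝ) + 2 ≤ H) (θ : ℝ) (x : J → ℕ) (S : Finset (Fin m)) :
    ∀ p, Inv M H B S p → w (A p) t = x → (∀ b ∈ S, inc M x S b + 4 * m ≤ B) →
      ∃ S' p', Inv M H B S' p' ∧ w (A p') t = x ∧ (∀ j, (x j : ℝ) + 2 ≤ p j → (x j : ℝ) + 2 ≤ p' j) ∧
        (∀ b ∈ S', inc M x S' b < θ) ∧ #S * θ - W M x S ≤ #S' * θ - W M x S' := by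
  induction S using Finset.strongInduction with
  | H S ih =>
    intro p hI hx hB
    by_cases h : ∀ b ∈ S, inc M x S b < θ
    · exact ⟨S, p, hI, hx, fun _ h => h, h, le_rfl⟩
    · push Not at h
      obtain ⟨b, hb, hθ⟩ := h
      obtain ⟨p', k1, k2, k3⟩ := kill hA hd hH hI hb (by rw [hx]; exact hB b hb)
      rw [hx] at k2 k3
      obtain ⟨S', p'', l1, l2, l3, l4, l5⟩ := ih (S.erase b) (erase_ssubset hb) p' k1 k2
        (fun b' hb' => by linarith [inc_erase M x S b b', hB b' (mem_of_mem_erase hb')])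
      refine ⟨S', p'', l1, l2, fun j hj => l3 j (k3 j hj), l4, ?_⟩
      have e1 := W_erase M x S b
      have e2 : (#S : ℝ) = #(S.erase b) + 1 := by exact_mod_cast (card_erase_add_one hb).symm
      rw [e2]
      linarith

lemma step {σ : Sched J m} (hσ : Feasible M σ) (t : ℕ) (S : Finset (Fin m)) (P : J → Prop)
    (hP : ∀ j, P j → M j ⊆ S) :
    ∑ j ∈ univ.filter P, (w σ (t + 1) j : ℝ) ≤ ∑ j ∈ univ.filter P, (w σ t j : ℝ) + #S := by
  have h1 : ∀ j, (w σ (t + 1) j : ℝ) = w σ t j + if ∃ i, σ t i = some j then 1 else 0 := by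
    intro j
    unfold w
    rw [range_add_one, filter_insert]
    split_ifs
    · rw [card_insert_of_notMem (by simp)]; push_cast; rfl
    · simp
  simp only [h1, sum_add_distrib]
  rw [sum_boole, filter_filter]
  have : #{j | P j ∧ ∃ i, σ t i = some j} ≤ #S := by
    refine card_le_card_of_forall_subsingleton (fun j i => σ t i = some j) ?_ ?_
    · intro j hj
      obtain ⟨h2, i, hi⟩ := (mem_filter.1 hj).2
      exact ⟨i, hP j h2 (hσ.1 _ _ _ hi), hi⟩
    · intro i _ j hj k hk
      exact Option.some.inj (hj.2.symm.trans hk.2)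
  have h3 : (#{j | P j ∧ ∃ i, σ t i = some j} : ℝ) ≤ #S := by exact_mod_cast this
  linarith

lemma main (hA : Online M A) (hd : ∀ b, #{j | b ∈ M j} ≤ 2 * m) (h2 : ∀ j, #(M j) = 2)
    (hm : 2 ≤ m) (N : ℕ) (t : ℕ) (ht : t ≤ N) :
    ∃ S p, Inv M ((N : ℝ) + 2) (6 * m) S p ∧ (∀ b ∈ S, inc M (w (A p) t) S b ≤ m) ∧
      (m : ℝ) * m * (1 - 2 / m) ^ t ≤ #S * m - W M (w (A p) t) S := by
  have hm' : (2 : ℝ) ≤ m := by exact_mod_cast hm
  induction t with
  | zero =>
    refine ⟨univ, fun _ => (N : ℝ) + 2, ⟨fun _ => by positivity, fun _ _ => rfl,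
      fun _ => ⟨0, by omega⟩, by simp, by simp⟩, ?_, ?_⟩
    · simp [inc, w]
    · simp [W, w]
  | succ t ih =>
    obtain ⟨S, p, k1, k2, k3⟩ := ih (by omega)
    have hF := hA.1 p k1.1
    have hS : (#S : ℝ) ≤ m := by exact_mod_cast (card_le_univ S).trans (by simp)
    have hN : ((t + 1 : ℕ) : ℝ) + 2 ≤ (N : ℝ) + 2 := by
      have : ((t + 1 : ℕ) : ℝ) ≤ N := by exact_mod_cast ht
      linarith
    obtain ⟨S', p', l1, l2, -, l4, l5⟩ := closure hA hd hN (m : ℝ) (w (A p) (t + 1)) S p k1 rfl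
      (fun b hb => by
        have := step hF t S (fun j => M j ⊆ S ∧ b ∈ M j) (fun j h => h.1)
        have h3 := k2 b hb
        unfold inc at h3 ⊢
        have e : ∀ x : J → ℕ, ∑ j ∈ @filter _ (fun j => M j ⊆ S ∧ b ∈ M j) (fun _ => propDecidable _)
          univ, (x j : ℝ) = ∑ j ∈ univ.filter (fun j => M j ⊆ S ∧ b ∈ M j), (x j : ℝ) :=
          fun x => by congr
        rw [e, e] at this
        linarith)
    refine ⟨S', p', l1, fun b hb => by rw [l2]; exact (l4 b hb).le, ?_⟩
    rw [l2]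
    refine le_trans ?_ l5
    have h5 := step hF t S (fun j => M j ⊆ S) (fun j h => h)
    have e : ∀ x : J → ℕ, ∑ j ∈ @filter _ (fun j => M j ⊆ S) (fun _ => propDecidable _)
      univ, (x j : ℝ) = W M x S := fun x => by unfold W; congr
    rw [e, e] at h5
    have h6 := sum_inc M h2 (w (A p) t) S
    have h7 : ∑ b ∈ S, inc M (w (A p) t) S b ≤ #S * m := by
      simpa using sum_le_card_nsmul S _ _ k2
    have h8 : (0 : ℝ) ≤ 1 - 2 / m := by
      rw [sub_nonneg, div_le_one (by linarith)]; exact hm'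
    have h9 := mul_le_mul_of_nonneg_right k3 h8
    have h10 : (#S : ℝ) ≤ (#S * m - W M (w (A p) t) S) * (2 / m) := by
      rw [← mul_div_assoc, le_div_iff₀ (by linarith)]; linarith
    rw [pow_succ, ← mul_assoc]
    nlinarith

end

theorem result (m : ℕ) (hm : 8 ≤ m) :
    ∃ (J : Type) (_ : Fintype J) (M : J → Finset (Fin m)), (∀ j, (M j).Nonempty) ∧
      ∀ A c, Online M A → Competitive M A c → Real.log m / 48 ≤ c := by
  refine ⟨{e : Fin m × Fin m // e.1 ≠ e.2}, inferInstance, fun e => {e.1.1, e.1.2},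
    fun e => by simp, fun A c hA hc => ?_⟩
  set M : {e : Fin m × Fin m // e.1 ≠ e.2} → Finset (Fin m) := fun e => {e.1.1, e.1.2} with hM
  have h2 : ∀ j, #(M j) = 2 := fun e => card_pair e.2
  have hd : ∀ b, #{j | b ∈ M j} ≤ 2 * m := by
    intro b
    have : #{j | b ∈ M j} ≤ #(({b} ×ˢ univ ∪ univ ×ˢ {b} : Finset (Fin m × Fin m))) := by
      refine card_le_card_of_injOn Subtype.val ?_ Subtype.val_injective.injOn
      intro j hj
      have := (mem_filter.1 hj).2
      simp only [hM, mem_insert, mem_singleton] at this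
      rcases this with h | h <;> simp [h]
    refine this.trans ((card_union_le _ _).trans ?_)
    simp [two_mul]
  have hm' : (8 : ℝ) ≤ m := by exact_mod_cast hm
  have hlog : 1 ≤ Real.log m := by
    rw [Real.le_log_iff_exp_le (by linarith)]
    linarith [Real.exp_one_lt_d9]
  set N : ℕ := ⌊m * Real.log m / 8⌋₊ + 1 with hN
  have hN1 : m * Real.log m / 8 < N := by rw [hN]; push_cast; exact Nat.lt_floor_add_one _
  have hN2 : (N : ℝ) ≤ m * Real.log m / 8 + 1 := by
    rw [hN]; push_cast; linarith [Nat.floor_le (a := m * Real.log m / 8) (by positivity)]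
  obtain ⟨S, p, k1, k2, k3⟩ := main hA hd h2 (by omega) N N le_rfl
  have hS : 1 < #S := by
    have e1 : Real.exp (-(3 / m)) ≤ 1 - 2 / m := by
      have h3 : (0 : ℝ) < 3 / m := by positivity
      have h4 := Real.add_one_le_exp (3 / (m : ℝ))
      rw [Real.exp_neg, inv_le_comm₀ (Real.exp_pos _) (by
        rw [sub_pos, div_lt_one (by linarith)]; linarith)]
      refine le_trans ?_ h4
      rw [inv_le_iff_one_le_mul₀ (by rw [sub_pos, div_lt_one (by linarith)]; linarith)]
      field_simp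
      nlinarith
    have e2 : Real.exp (-(3 / m)) ^ N ≤ (1 - 2 / (m : ℝ)) ^ N :=
      pow_le_pow_left₀ (Real.exp_pos _).le e1 N
    have e3 : Real.exp (-Real.log m) < Real.exp (-(3 / m)) ^ N := by
      rw [← Real.exp_nat_mul, Real.exp_lt_exp]
      have : (N : ℝ) * (3 / m) < Real.log m := by
        rw [← mul_div_assoc, div_lt_iff₀ (by linarith)]; nlinarith
      linarith
    rw [Real.exp_neg, Real.exp_log (by linarith)] at e3
    have e4 : 0 ≤ W M (w (A p) N) S := sum_nonneg fun _ _ => Nat.cast_nonneg _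
    have e5 : (m : ℝ) * m * (m : ℝ)⁻¹ < m * m * (1 - 2 / m) ^ N :=
      mul_lt_mul_of_pos_left (e3.trans_le e2) (by positivity)
    rw [mul_assoc, mul_inv_cancel₀ (by linarith)] at e5
    have e6 : (1 : ℝ) < #S := by nlinarith
    exact_mod_cast e6
  obtain ⟨a, ha, b, hb, hab⟩ := one_lt_card.1 hS
  obtain ⟨S', p', l1, l2, l3, l4, -⟩ := closure hA hd (t := N) le_rfl 0 (w (A p) N) S p k1 rfl
    (fun b hb => by linarith [k2 b hb])
  have hS' : S' = ∅ := by
    refine eq_empty_of_forall_notMem fun b hb => ?_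
    exact absurd (l4 b hb) (not_lt.2 (sum_nonneg fun _ _ => Nat.cast_nonneg _))
  subst hS'
  obtain ⟨q1, -, f, q3, q4⟩ := l1
  have hne : ∀ j, ¬ M j ⊆ ∅ := fun j h => by
    have := h2 j
    rw [subset_empty.1 h] at this
    simp at this
  obtain ⟨τ, t1, t2⟩ := offline M p' q1 f (fun j => (q3 j (hne j)).1) (6 * m)
    (fun b => by simpa [hne] using q4 b)
  obtain ⟨i, a', d1, d2, d3⟩ := hc p' q1 τ _ t1 t2 ⟨(a, b), hab⟩
  by_contra hcc
  push Not at hcc
  have hD : Done p' (A p') ⟨(a, b), hab⟩ N := ⟨i, a', d1, by nlinarith, d3⟩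
  have := cnt hD
  rw [l2] at this
  have hw : (w (A p) N ⟨(a, b), hab⟩ : ℝ) ≤ N := by exact_mod_cast w_le (A p) N ⟨(a, b), hab⟩
  have hal : M ⟨(a, b), hab⟩ ⊆ S := by
    intro x hx
    simp only [hM, mem_insert, mem_singleton] at hx
    rcases hx with rfl | rfl <;> assumption
  have := l3 ⟨(a, b), hab⟩ (by rw [k1.2.1 _ hal]; linarith)
  linarith

end Pool.Agent.Results.MP_a5173a_lc.Yes
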